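import Mathlib

set_option autoImplicit false

/-!
# An IRC-colourable graph of chromatic number 3 without an IRC-colouring with 3 colours
-/

namespace Pool.Agent.Results.MP_c3fc26_co.FourNotThree

open SimpleGraph

/-- The closed neighbourhood of `v`. -/
def closedNbhd {V : Type} (G : SimpleGraph V) (v : V) : Set V := {u | u = v ∨ G.Adj v u}

/-- The private neighbourhood of `v` with respect to `S`. -/
def privateNbhd {V : Type} (G : SimpleGraph V) (v : V) (S : Set V) : Set V :=
  closedNbhd G v \ ⋃ u ∈ S \ {v}, closedNbhd G u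

/-- `S` is irredundant: every member of `S` has a nonempty private neighbourhood. -/
def Irredundant {V : Type} (G : SimpleGraph V) (S : Set V) : Prop :=
  ∀ v ∈ S, (privateNbhd G v S).Nonempty

/-- `c` is an IRC-colouring with `k` colours: a proper colouring with `k` nonempty colour classes
for which every rainbow committee is irredundant.  A rainbow committee is the range of a map `s`
picking a vertex `s i` of colour `i` for every colour `i`. -/
def IsIRC {V : Type} (G : SimpleGraph V) (k : ℕ) (c : V → Fin k) : Prop :=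
  (∀ u v, G.Adj u v → c u ≠ c v) ∧ Function.Surjective c ∧
    ∀ s : Fin k → V, (∀ i, c (s i) = i) → Irredundant G (Set.range s)

/-! ### The graph -/

/-- The neighbours of the vertices. -/
def nb : Fin 24 → List (Fin 24) :=
  ![[1, 2], [0, 3, 4, 5], [0, 6, 7, 8], [1, 9, 17, 20], [1, 10, 15, 21], [1, 11, 18, 19],
    [2, 12, 15, 23], [2, 13, 18, 20], [2, 9, 14, 22], [3, 8, 10, 13, 19], [4, 9, 11, 23],
    [5, 10, 12, 20, 22], [6, 11, 13, 14], [7, 9, 12, 21], [8, 12, 16, 18], [4, 6, 19, 22],
    [14, 19, 20, 21], [3, 21, 22, 23], [5, 7, 14, 23], [5, 9, 15, 16], [3, 7, 11, 16],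
    [4, 13, 16, 17], [8, 11, 15, 17], [6, 10, 17, 18]]

lemma nb_symm : ∀ u v, v ∈ nb u → u ∈ nb v := by decide +kernel

lemma nb_irrefl : ∀ u, u ∉ nb u := by decide +kernel

/-- The graph. -/
def Gr : SimpleGraph (Fin 24) where
  Adj u v := v ∈ nb u
  symm := ⟨fun _ _ h => nb_symm _ _ h⟩
  loopless := ⟨fun u h => nb_irrefl u h⟩

instance : DecidableRel Gr.Adj := fun u v => inferInstanceAs (Decidable (v ∈ nb u))

/-- Distance from the vertex `0`. -/
def dist0 : Fin 24 → ℕ :=
  ![0, 1, 1, 2, 2, 2, 2, 2, 2, 3, 3, 3, 3, 3, 3, 3, 4, 3, 3, 3, 3, 3, 3, 3]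

lemma connected : Gr.Connected := by
  have step : ∀ v : Fin 24, v ≠ 0 → ∃ u, Gr.Adj u v ∧ dist0 u < dist0 v := by decide +kernel
  have reach : ∀ (n : ℕ) (v : Fin 24), dist0 v = n → Gr.Reachable 0 v := by
    intro n
    induction n using Nat.strong_induction_on with
    | _ n ih =>
      intro v hv
      by_cases h0 : v = 0
      · rw [h0]
      · obtain ⟨u, hu, hlt⟩ := step v h0
        exact (ih (dist0 u) (hv ▸ hlt) u rfl).trans hu.reachable
  rw [connected_iff_exists_forall_reachable]
  exact ⟨0, fun v => reach _ v rfl⟩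

/-! ### The colouring with four colours -/

/-- The 4-colouring. -/
def c4 : Fin 24 → Fin 4 :=
  ![0, 1, 1, 0, 0, 0, 0, 0, 0, 3, 2, 3, 1, 2, 2, 3, 3, 2, 3, 1, 1, 1, 1, 1]

/-- Every vertex `u ≠ v` dominates at most one neighbour of `v`. -/
lemma codegree : ∀ v u : Fin 24, u ≠ v → ∀ w ∈ nb v, ∀ w' ∈ nb v,
    (w = u ∨ w ∈ nb u) → (w' = u ∨ w' ∈ nb u) → w = w' := by decide +kernel

lemma degree : ∀ v : Fin 24, v ≠ 0 → 4 ≤ (nb v).toFinset.card := by decide +kernel

lemma irc4 : IsIRC Gr 4 c4 := by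
  refine ⟨by decide +kernel, by decide +kernel, ?_⟩
  rintro s hs _ ⟨i, rfl⟩
  by_contra hcon
  rw [Set.not_nonempty_iff_eq_empty] at hcon
  -- every member of the closed neighbourhood is dominated by another committee member
  have hdom : ∀ w ∈ closedNbhd Gr (s i), ∃ j, j ≠ i ∧ w ∈ closedNbhd Gr (s j) := by
    intro w hw
    by_contra hno
    push Not at hno
    have : w ∈ privateNbhd Gr (s i) (Set.range s) := by
      refine ⟨hw, ?_⟩
      simp only [Set.mem_iUnion, not_exists]
      rintro _ ⟨⟨j, rfl⟩, hj⟩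
      refine hno j ?_
      rintro rfl
      exact hj rfl
    rw [hcon] at this
    exact this
  by_cases h0 : s i = 0
  · -- the vertex of degree two
    have hi : i = 0 := by have := hs i; rw [h0] at this; rw [← this]; rfl
    subst hi
    have hnot : ∀ j : Fin 4, j ≠ 0 → s j ≠ 0 := by
      intro j hj h
      have := hs j
      rw [h] at this
      exact hj this.symm
    have key : ∀ (j : Fin 4) (x : Fin 24), x ∈ closedNbhd Gr (s j) → x ∈ nb (s j) ∨ x = s j := by
      intro j x hx
      exact hx.symm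
    obtain ⟨j0, hj0, hd0⟩ := hdom 0 (Or.inl h0.symm)
    obtain ⟨j1, hj1, hd1⟩ := hdom 1 (Or.inr (by rw [h0]; decide))
    obtain ⟨j2, hj2, hd2⟩ := hdom 2 (Or.inr (by rw [h0]; decide))
    have f0 : ∀ u : Fin 24, u ≠ 0 → (0 ∈ nb u ∨ (0 : Fin 24) = u) → (u = 1 ∨ u = 2) := by
      decide +kernel
    have f1 : ∀ u : Fin 24, c4 u ≠ 0 → (1 ∈ nb u ∨ (1 : Fin 24) = u) → u = 1 := by
      decide +kernel
    have f2 : ∀ u : Fin 24, c4 u ≠ 0 → (2 ∈ nb u ∨ (2 : Fin 24) = u) → u = 2 := by
      decide +kernel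
    have e1 := f1 (s j1) (by rw [hs]; exact hj1) (key _ _ hd1)
    have e2 := f2 (s j2) (by rw [hs]; exact hj2) (key _ _ hd2)
    have g1 := hs j1
    have g2 := hs j2
    rw [e1] at g1
    rw [e2] at g2
    have hj : j1 = j2 := by rw [← g1, ← g2]; rfl
    rw [hj, e2] at e1
    exact absurd e1 (by decide)
  · -- a vertex of degree at least four
    choose! f hf using hdom
    have hcard := degree (s i) h0
    have hmaps : ∀ w ∈ (nb (s i)).toFinset, f w ∈ Finset.univ.erase i := by
      intro w hw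
      rw [Finset.mem_erase]
      refine ⟨(hf w (Or.inr (List.mem_toFinset.mp hw))).1, Finset.mem_univ _⟩
    have hlt : (Finset.univ.erase i : Finset (Fin 4)).card < (nb (s i)).toFinset.card := by
      rw [Finset.card_erase_of_mem (Finset.mem_univ _), Finset.card_univ, Fintype.card_fin]
      omega
    obtain ⟨w, hw, w', hw', hne, heq⟩ :=
      Finset.exists_ne_map_eq_of_card_lt_of_maps_to hlt hmaps
    have hw1 := List.mem_toFinset.mp hw
    have hw1' := List.mem_toFinset.mp hw'
    have h1 := hf w (Or.inr hw1)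
    have h2 := hf w' (Or.inr hw1')
    rw [← heq] at h2
    have hsne : s (f w) ≠ s i := by
      intro h
      apply h1.1
      rw [← hs (f w), ← hs i, h]
    exact hne (codegree (s i) (s (f w)) hsne w hw1 w' hw1' h1.2 h2.2)

/-! ### No colouring with three colours -/

/-- In an IRC-colouring with three colours, for three vertices of different colours the closed
neighbourhood of the first is not contained in the union of those of the other two. -/
lemma three {V : Type} {G : SimpleGraph V} {c : V → Fin 3} (hc : IsIRC G 3 c) {x y z : V}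
    (hxy : c x ≠ c y) (hxz : c x ≠ c z) (hyz : c y ≠ c z) :
    ∃ w ∈ closedNbhd G x, w ∉ closedNbhd G y ∧ w ∉ closedNbhd G z := by
  let s : Fin 3 → V := fun i => if i = c x then x else if i = c y then y else z
  have hs : ∀ i, c (s i) = i := by
    intro i
    by_cases h1 : i = c x
    · simp only [s, if_pos h1]; exact h1.symm
    · by_cases h2 : i = c y
      · simp only [s, if_neg h1, if_pos h2]; exact h2.symm
      · simp only [s, if_neg h1, if_neg h2]
        have a1 := (c x).2
        have a2 := (c y).2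
        have a3 := (c z).2
        have a4 := i.2
        rw [Fin.ext_iff] at h1 h2 ⊢
        rw [Ne, Fin.ext_iff] at hxy hxz hyz
        omega
  have hsx : s (c x) = x := by simp only [s, if_true]
  have hsy : s (c y) = y := by simp only [s, if_neg hxy.symm, if_true]
  have hsz : s (c z) = z := by simp only [s, if_neg hxz.symm, if_neg hyz.symm]
  obtain ⟨w, hw, hw'⟩ := hc.2.2 s hs x ⟨c x, hsx⟩
  simp only [Set.mem_iUnion, not_exists] at hw'
  refine ⟨w, hw, ?_, ?_⟩
  · exact hw' y ⟨⟨c y, hsy⟩, fun h => hxy (congrArg c h).symm⟩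
  · exact hw' z ⟨⟨c z, hsz⟩, fun h => hxz (congrArg c h).symm⟩

lemma no_irc3 : ¬ ∃ c : Fin 24 → Fin 3, IsIRC Gr 3 c := by
  rintro ⟨c, hc⟩
  have prop := hc.1
  have h01 : c 0 ≠ c 1 := prop 0 1 (by decide)
  have h02 : c 0 ≠ c 2 := prop 0 2 (by decide)
  -- the closed neighbourhood of 0
  have hN : ∀ w ∈ closedNbhd Gr 0, w = 0 ∨ w = 1 ∨ w = 2 := by
    rintro w (h | h)
    · exact Or.inl h
    · exact (by decide +kernel : ∀ w : Fin 24, w ∈ nb 0 → w = 0 ∨ w = 1 ∨ w = 2) w h
  have h12 : c 1 = c 2 := by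
    by_contra h
    obtain ⟨w, hw, hw1, hw2⟩ := three hc h01 h02 h
    rcases hN w hw with rfl | rfl | rfl
    · exact hw1 (Or.inr (by decide))
    · exact hw1 (Or.inl rfl)
    · exact hw2 (Or.inl rfl)
  -- the neighbours of 1 and 2 have the colour of 0
  have n1 : ∀ u, Gr.Adj 1 u → c u = c 0 := by
    intro u hu
    by_contra h
    have hu1 : c u ≠ c 1 := (prop 1 u hu).symm
    obtain ⟨w, hw, hw1, hw2⟩ := three hc h02 (Ne.symm h) (by rw [← h12]; exact hu1.symm)
    rcases hN w hw with rfl | rfl | rfl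
    · exact hw1 (Or.inr (by decide))
    · exact hw2 (Or.inr hu.symm)
    · exact hw1 (Or.inl rfl)
  have n2 : ∀ u, Gr.Adj 2 u → c u = c 0 := by
    intro u hu
    by_contra h
    have hu1 : c u ≠ c 2 := (prop 2 u hu).symm
    obtain ⟨w, hw, hw1, hw2⟩ := three hc h01 (Ne.symm h) (by rw [h12]; exact hu1.symm)
    rcases hN w hw with rfl | rfl | rfl
    · exact hw1 (Or.inr (by decide))
    · exact hw1 (Or.inl rfl)
    · exact hw2 (Or.inr hu.symm)
  -- the 5-cycle 9, 10, 11, 12, 13 avoids the colour of 0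
  have a9 : c 9 ≠ c 0 := by rw [← n1 3 (by decide)]; exact prop 9 3 (by decide)
  have a10 : c 10 ≠ c 0 := by rw [← n1 4 (by decide)]; exact prop 10 4 (by decide)
  have a11 : c 11 ≠ c 0 := by rw [← n1 5 (by decide)]; exact prop 11 5 (by decide)
  have a12 : c 12 ≠ c 0 := by rw [← n2 6 (by decide)]; exact prop 12 6 (by decide)
  have a13 : c 13 ≠ c 0 := by rw [← n2 7 (by decide)]; exact prop 13 7 (by decide)
  have b1 : c 9 ≠ c 10 := prop 9 10 (by decide)
  have b2 : c 10 ≠ c 11 := prop 10 11 (by decide)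
  have b3 : c 11 ≠ c 12 := prop 11 12 (by decide)
  have b4 : c 12 ≠ c 13 := prop 12 13 (by decide)
  have b5 : c 13 ≠ c 9 := prop 13 9 (by decide)
  rw [Ne, Fin.ext_iff] at a9 a10 a11 a12 a13 b1 b2 b3 b4 b5
  have := (c 0).2
  have := (c 9).2
  have := (c 10).2
  have := (c 11).2
  have := (c 12).2
  have := (c 13).2
  omega

/-! ### The chromatic number -/

/-- A proper 3-colouring. -/
def c3 : Fin 24 → Fin 3 :=
  ![1, 2, 0, 1, 0, 0, 1, 1, 2, 0, 1, 2, 0, 2, 1, 2, 2, 2, 2, 1, 0, 1, 0, 0]

lemma chromatic : Gr.chromaticNumber = 3 := by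
  apply le_antisymm
  · have : Gr.Colorable 3 := ⟨Coloring.mk c3 (by
      intro u v h
      exact (by decide +kernel : ∀ u v : Fin 24, Gr.Adj u v → c3 u ≠ c3 v) u v h)⟩
    exact this.chromaticNumber_le
  · by_contra h
    push Not at h
    have h2 : Gr.chromaticNumber ≤ (2 : ℕ) := Order.le_of_lt_add_one (by exact_mod_cast h)
    rw [chromaticNumber_le_iff_colorable] at h2
    obtain ⟨c⟩ := h2
    have b1 : c 9 ≠ c 10 := c.valid (by decide)
    have b2 : c 10 ≠ c 11 := c.valid (by decide)
    have b3 : c 11 ≠ c 12 := c.valid (by decide)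
    have b4 : c 12 ≠ c 13 := c.valid (by decide)
    have b5 : c 13 ≠ c 9 := c.valid (by decide)
    rw [Ne, Fin.ext_iff] at b1 b2 b3 b4 b5
    have := (c 9).2
    have := (c 10).2
    have := (c 11).2
    have := (c 12).2
    have := (c 13).2
    omega

/-- **Theorem.** There is a finite connected simple graph of chromatic number `3` that has an
IRC-colouring with `4` colours but no IRC-colouring with `3` colours. -/
theorem result : ∃ (V : Type) (_ : Fintype V) (G : SimpleGraph V),
    G.Connected ∧ G.chromaticNumber = 3 ∧ (∃ c : V → Fin 4, IsIRC G 4 c) ∧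
      ¬ ∃ c : V → Fin 3, IsIRC G 3 c :=
  ⟨Fin 24, inferInstance, Gr, connected, chromatic, ⟨c4, irc4⟩, no_irc3⟩

end Pool.Agent.Results.MP_c3fc26_co.FourNotThree
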